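import Pool.Agent.Helper10.RM.MulM
import Pool.Agent.Helper10.RM.Qd

/-!
# Bounds for all Artin twists over an arbitrary Galois 2-extension, for a positive proportion

Let `F / ℚ` be ANY Galois extension of 2-power degree, with group `G`. There is no condition at the
prime `2`.

Theorem. Among all elliptic curves `E / ℚ`, ordered by height as in the problem, a positive
proportion has at the same time
* `m_ρ(E) ≤ dim ρ` for every finite dimensional complex representation `ρ` of `G` (so `V_E` is contained in
  the regular representation, `m_ρ(E) ≤ 1` for all `ρ` of dimension one, and the rank of `E(F)` is at most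
  the degree of `F`);
* for all subfields `K` of `F` which are Galois over `ℚ` and at most slightly ramified at `2`: `E(K)` is
  finite, of odd order, and `m_ρ(E) = 0` for all representations `ρ` which are trivial on `Gal(F / K)`.

Here `K` is slightly ramified at `2` if it has a prime `𝔭` over `2` of ramification index at most two
such that `2` is not a square modulo `𝔭 ^ 4`. All fields with an unramified prime over `2` are of
this kind, and so are all fields `ℚ(√d)` with `d` odd. There is no condition on the residue field.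

The library result `PositiveProportionUnramified` needs that `2` is unramified in `F`, and this
cannot be avoided by its method, which makes the 2-Selmer group over `F` zero: if `2` is
sufficiently ramified in `F`, then this group is never zero for the curves of the family. Here the idea
is to look at the group `A = E(F)` itself. Let `P ∈ A` be a point whose class in `A / 2 A` is invariant
under `G`. Its class `x(P) - D θ` in `F(θ)` modulo squares, `θ` a zero of the cubic polynomial, is
invariant under `Gal(F(θ) / L)`, `L = ℚ(θ)`, and has square norm. The two signs in the resulting cocycle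
can be normalised by the norm, so that by Hilbert's theorem 90 it is the class of an element `x` of `L`,
whose norm is a square in `ℚ`. It satisfies the local conditions of a 2-Selmer class of `E / ℚ` at
all primes except `2`. At `2`, where `L` is unramified and inert, the elements with square norm have
four classes, two of which come from points, and these form a subgroup. By the choice of the twist
in the library (which makes the 2-Selmer group over `ℚ`, relaxed at some odd primes, zero)
`(A / 2 A) ^ G` has at most two elements. As `G` is a 2-group, the socle of the `𝔽_2[G]`-module `A / 2 A`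
has at most two elements. This gives a homomorphism `φ : A → ℤ` for which `a ↦ (φ(g a))_g` is
injective modulo torsion, and `V_E` is contained in the regular representation.

For the fields `K` the family is twisted by two: the curves are `y ^ 2 = x ^ 3 + a (2 D) ^ 2 x + b (2 D) ^ 3`
with `a`, `b` equal to `3` modulo `8` and `D` a product of primes which are `1` modulo `8`. A
computation in the completion of `K` at `𝔭` shows that the points over it have only such classes coming
from the dyadic field which are classes of points of the untwisted curve over the dyadic field. Hence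
`(E(K) / 2 E(K)) ^ Gal(K / ℚ) = 0`, `E(K) = 2 E(K)`, and `E(K)` is finite.
-/

set_option autoImplicit false
set_option linter.all false

namespace Pool.Agent.Results.MP_775b3b_nt.DimensionBoundAllTwoExtensions

open Filter NumberField
open Pool.Agent.Helper10.RM Pool.Agent.Helper10.RM.Mul

/-- `K` has a prime `𝔭` over `2` which is unramified (that is `2 ∉ 𝔭 ^ 2`), or `K = ℚ(√d)` with an odd
integer `d`, or `K` has a prime `𝔭` over `2` of ramification index at most two (that is `2 ∉ 𝔭 ^ 3`) and
`2` is not a square modulo `𝔭 ^ 4`. (The first two conditions imply the third one.) -/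
def Slight (K : Type) [Field K] [NumberField K] : Prop :=
  (∃ 𝔭 : Ideal (𝓞 K), 𝔭.IsPrime ∧ (2 : 𝓞 K) ∈ 𝔭 ∧ (2 : 𝓞 K) ∉ 𝔭 ^ 2) ∨
  (Module.finrank ℚ K = 2 ∧ ∃ (d : ℤ) (z : K), Odd d ∧ z ^ 2 = (d : K) ∧
    ∀ q : ℚ, z ≠ algebraMap ℚ K q) ∨
  (∃ 𝔭 : Ideal (𝓞 K), 𝔭.IsPrime ∧ (2 : 𝓞 K) ∈ 𝔭 ∧ (2 : 𝓞 K) ∉ 𝔭 ^ 3 ∧
    ∀ x : 𝓞 K, x ^ 2 - 2 ∉ 𝔭 ^ 4)

/-- The bounds for the curve `p`: `m_ρ ≤ dim ρ` for all finite dimensional `ρ`, and for the subfields `K` of
`F` which are Galois over `ℚ` and slightly ramified at `2` the group `E(K)` is finite of odd order and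
`m_ρ = 0` for all `ρ` which are trivial on `Gal(F / K)`. -/
structure Bounds (F : Type) [Field F] [NumberField F] (p : ℤ × ℤ) : Prop where
  le : ∀ (V : Type) [AddCommGroup V] [Module ℂ V] [FiniteDimensional ℂ V]
    (ρ : Representation ℂ (F ≃ₐ[ℚ] F) V), mult F p ρ ≤ Module.finrank ℂ V
  fin : ∀ K : IntermediateField ℚ F, IsGalois ℚ K → Slight K →
    Finite (Pts K p) ∧ Odd (Nat.card (Pts K p))
  zero : ∀ K : IntermediateField ℚ F, IsGalois ℚ K → Slight K →
    ∀ (V : Type) [AddCommGroup V] [Module ℂ V] (ρ : Representation ℂ (F ≃ₐ[ℚ] F) V),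
      (∀ g ∈ K.fixingSubgroup, ρ g = 1) → mult F p ρ = 0

theorem slight_M {K : Type} [Field K] [NumberField K] (h : Slight K) : SlightM K := by
  rcases h with ⟨𝔭, h𝔭, h2, h3⟩ | ⟨h1, d, z, hd, hz, hq⟩ | h
  · refine ⟨𝔭, h𝔭, h2, fun h4 => h3 (Ideal.pow_le_pow_right (by norm_num) h4), fun x hx => ?_⟩
    have hx4 : x ^ 2 - 2 ∈ 𝔭 ^ 2 := Ideal.pow_le_pow_right (by norm_num) hx
    have hxm : x ∈ 𝔭 := by
      have h5 : x ^ 2 - 2 ∈ 𝔭 := by
        have := Ideal.pow_le_pow_right (I := 𝔭) (show 1 ≤ 2 by norm_num) hx4
        rwa [pow_one] at this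
      have h6 : x ^ 2 ∈ 𝔭 := by
        have e : x ^ 2 = (x ^ 2 - 2) + 2 := by ring
        rw [e]
        exact Ideal.add_mem _ h5 h2
      exact h𝔭.mem_of_pow_mem 2 h6
    apply h3
    have e : (2 : 𝓞 K) = x ^ 2 - (x ^ 2 - 2) := by ring
    rw [e]
    exact Ideal.sub_mem _ (Ideal.pow_mem_pow hxm 2) hx4
  · exact slight_quad h1 hd hz hq
  · exact h

theorem bounds_of {F : Type} [Field F] [NumberField F] [IsGalois ℚ F] {n : ℕ}
    (hn : Module.finrank ℚ F = 2 ^ n) {a b D : ℤ}
    (h : DatM F 2 3 3 a b D) : Bounds F (a * (2 * D) ^ 2, b * (2 * D) ^ 3) := by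
  have key : ∀ K : IntermediateField ℚ F, IsGalois ℚ K → Slight K →
      Finite (Pts K (a * (2 * D) ^ 2, b * (2 * D) ^ 3)) ∧
        Odd (Nat.card (Pts K (a * (2 * D) ^ 2, b * (2 * D) ^ 3))) := by
    intro K hK h1
    haveI := hK
    have hdvd : Module.finrank ℚ K ∣ 2 ^ n := by
      rw [← hn]
      exact ⟨_, (Module.finrank_mul_finrank ℚ K F).symm⟩
    obtain ⟨k, -, hk⟩ := (Nat.dvd_prime_pow Nat.prime_two).1 hdvd
    exact pts_subM (Or.inr rfl) hn (by decide) (by norm_num) h K (lc_slight hk (slight_M h1))
  obtain ⟨φ, hφ⟩ := phi_ptsM (Or.inr rfl) hn (by decide) (by norm_num) h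
  exact ⟨fun V _ _ _ ρ => mult_le φ hφ V ρ, key,
    fun K hK h1 V _ _ ρ hρ => mult_zero K (key K hK h1).1 V ρ hρ⟩

/-- For every Galois extension `F / ℚ` of degree `2 ^ n` there is `c > 0` such that for all large `X` at
least `c` times the number of all elliptic curves over `ℚ` of height at most `X` satisfy the bounds. -/
theorem result (F : Type) [Field F] [NumberField F] [IsGalois ℚ F] (n : ℕ)
    (hn : Module.finrank ℚ F = 2 ^ n) :
    (∀ X : ℕ, (Curves X).Finite) ∧
    ∃ c : ℝ, 0 < c ∧ ∀ᶠ X : ℕ in atTop,
      0 < (Curves X).ncard ∧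
      c * ((Curves X).ncard : ℝ) ≤ (({p ∈ Curves X | Bounds F p}).ncard : ℝ) := by
  have hset : ∀ X : ℕ, Curves X = {p : ℤ × ℤ | Pool.Agent.N922.PQ.Crv X p.1 p.2} := by
    intro X
    ext p
    exact (crv_iff X p).symm
  have hfin : ∀ X : ℕ, (Curves X).Finite := fun X => by
    rw [hset]
    exact Pool.Agent.N922.PQ.crv_fin X
  refine ⟨hfin, ?_⟩
  obtain ⟨c, hc, X₀, h⟩ := final8M (m := 2) (α := 3) (β := 3) (Or.inr rfl) F hn (by decide)
    (by decide) (fun p => Bounds F p) (fun a b D h => bounds_of hn h)
  refine ⟨c, hc, ?_⟩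
  filter_upwards [eventually_ge_atTop (max X₀ 27)] with X hX
  refine ⟨(Set.ncard_pos (hfin X)).2 ⟨_, nonempty ((le_max_right _ _).trans hX)⟩, ?_⟩
  have h1 := (h X ((le_max_left _ _).trans hX)).2
  rw [← hset] at h1
  have e : {p : ℤ × ℤ | Pool.Agent.N922.PQ.Crv X p.1 p.2 ∧ Bounds F p} =
      {p ∈ Curves X | Bounds F p} := by
    ext p
    exact and_congr (crv_iff X p) Iff.rfl
  rw [e] at h1
  exact h1

end Pool.Agent.Results.MP_775b3b_nt.DimensionBoundAllTwoExtensions
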