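import Pool.Agent.Helper10.RM.MulM
import Pool.Agent.Helper10.RM.Qd

/-!
# All Artin twists over a Galois 2-extension which is mildly ramified at `2` have rank zero for a
# positive proportion of all elliptic curves over `ℚ`

Let `F / ℚ` be a Galois extension of 2-power degree with a prime `𝔭` over `2` of ramification index at
most two. Assume that the residue field of `𝔭` has at most four elements, or that `2` is not a square
modulo `𝔭 ^ 4`. (All quadratic fields, all biquadratic and cyclic quartic fields in which `2` is not
totally ramified, and all fields in which `2` is unramified are of this kind; `F` may be arbitrarily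
ramified at odd primes.)

Theorem. For a positive proportion of all elliptic curves `E / ℚ`, ordered by height as in the problem,
`E(F)` is finite of odd order, and `m_ρ(E) = 0` for all representations `ρ` of `Gal(F / ℚ)`.

The library result `PositiveProportionUnramified` needs that `2` is unramified in `F`. The proof here
considers the points of `E(F)` which are invariant modulo `2 E(F)`. By Hilbert's theorem 90 the class of
such a point comes from an element `x` of the cubic field `L` with square norm. If `2` is not a square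
modulo `𝔭 ^ 4` we use curves of the form `y ^ 2 = x ^ 3 + a (2 D) ^ 2 x + b (2 D) ^ 3`, and else curves of the
form `y ^ 2 = x ^ 3 + a D ^ 2 x + b D ^ 3`, where `a`, `b` are `3` modulo `8`. A computation with the points over
the completion of `F` at `𝔭` shows that the class of `x` at `2` is the class of a point over the dyadic
field of the curve `y ^ 2 = x ^ 3 + a x + b`. So `x` gives a 2-Selmer element over `ℚ`, relaxed at the
primes which divide `D`, and the choice of `D` in the library makes it trivial.
-/

set_option autoImplicit false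
set_option linter.all false

namespace Pool.Agent.Results.MP_775b3b_nt.VanishingMildlyRamifiedAtTwo

open Filter NumberField
open Pool.Agent.Helper10.RM Pool.Agent.Helper10.RM.Mul

/-- `K` has degree at most two, or there is a prime `𝔭` of `K` over `2` of ramification index at most two
(that is `2 ∉ 𝔭 ^ 3`) such that the residue field has at most four elements or `2` is not a square
modulo `𝔭 ^ 4`. (The number of elements of the residue field is a power of two; the condition holds if
there is a prime `𝔭` over `2` which is unramified.) -/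
def MildAtTwo (K : Type) [Field K] [NumberField K] : Prop :=
  Module.finrank ℚ K ≤ 2 ∨ ∃ 𝔭 : Ideal (𝓞 K), 𝔭.IsPrime ∧ (2 : 𝓞 K) ∈ 𝔭 ∧ (2 : 𝓞 K) ∉ 𝔭 ^ 3 ∧
    (Nat.card (𝓞 K ⧸ 𝔭) ∣ 4 ∨ ∀ x : 𝓞 K, x ^ 2 - 2 ∉ 𝔭 ^ 4)

/-- `E(F)` is finite of odd order, and all multiplicities `m_ρ(E)` are zero. -/
structure Vanish (F : Type) [Field F] [CharZero F] (p : ℤ × ℤ) : Prop where
  fin : Finite (Pts F p)
  odd : Odd (Nat.card (Pts F p))
  zero : ∀ (V : Type) [AddCommGroup V] [Module ℂ V] (ρ : Representation ℂ (F ≃ₐ[ℚ] F) V),
    mult F p ρ = 0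

theorem vanish_of {F : Type} [Field F] [NumberField F] [IsGalois ℚ F] {n : ℕ}
    (hn : Module.finrank ℚ F = 2 ^ n) {m : ℤ} (hm : m = 1 ∨ m = 2) {a b D : ℤ}
    (hLC : LCm F (𝓞 F) m 3 3) (h : DatM F m 3 3 a b D) :
    Vanish F (a * (m * D) ^ 2, b * (m * D) ^ 3) := by
  have key := pts_subM hm hn (by decide) (by norm_num) h F hLC
  exact ⟨key.1, key.2, fun V _ _ ρ => mult_zero_of_finite key.1 V ρ⟩

/-- For every Galois extension `F / ℚ` of degree `2 ^ n` which is mildly ramified at `2` there is
`c > 0` such that for all large `X` at least `c` times the number of all elliptic curves `E` over `ℚ` of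
height at most `X` have `E(F)` finite and `m_ρ(E) = 0` for all representations `ρ` of `Gal(F / ℚ)`. -/
theorem result (F : Type) [Field F] [NumberField F] [IsGalois ℚ F] (n : ℕ)
    (hn : Module.finrank ℚ F = 2 ^ n) (h₀ : MildAtTwo F) :
    (∀ X : ℕ, (Curves X).Finite) ∧
    ∃ c : ℝ, 0 < c ∧ ∀ᶠ X : ℕ in atTop,
      0 < (Curves X).ncard ∧
      c * ((Curves X).ncard : ℝ) ≤ (({p ∈ Curves X | Vanish F p}).ncard : ℝ) := by
  have hset : ∀ X : ℕ, Curves X = {p : ℤ × ℤ | Pool.Agent.N922.PQ.Crv X p.1 p.2} := by
    intro X
    ext p
    exact (crv_iff X p).symm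
  have hfin : ∀ X : ℕ, (Curves X).Finite := fun X => by
    rw [hset]
    exact Pool.Agent.N922.PQ.crv_fin X
  refine ⟨hfin, ?_⟩
  have hmild : MildM F := by
    rcases h₀ with h | h
    · exact mild_to_M (mild_quad h)
    · exact h
  obtain ⟨m, hm, hLC⟩ := lc_mild hn hmild
  obtain ⟨c, hc, X₀, h⟩ := final8M (m := m) (α := 3) (β := 3) hm F hn (by decide) (by decide)
    (fun p => Vanish F p) (fun a b D h => vanish_of hn hm hLC h)
  refine ⟨c, hc, ?_⟩
  filter_upwards [eventually_ge_atTop (max X₀ 27)] with X hX
  refine ⟨(Set.ncard_pos (hfin X)).2 ⟨_, nonempty ((le_max_right _ _).trans hX)⟩, ?_⟩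
  have h1 := (h X ((le_max_left _ _).trans hX)).2
  rw [← hset] at h1
  have e : {p : ℤ × ℤ | Pool.Agent.N922.PQ.Crv X p.1 p.2 ∧ Vanish F p} =
      {p ∈ Curves X | Vanish F p} := by
    ext p
    exact and_congr (crv_iff X p) Iff.rfl
  rw [e] at h1
  exact h1

end Pool.Agent.Results.MP_775b3b_nt.VanishingMildlyRamifiedAtTwo
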